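import Pool.Agent.Helper86.EN.Goals4
import Pool.Agent.Helper24.CH.Formula

/-!
# Project EN4, packet SQ4: local maps (helper30)
-/

set_option autoImplicit false

open Complex MeasureTheory Set Filter Topology ContDiff

namespace Pool.Agent.Helper30.EN4.SQ4

open Pool.Agent.Helper86.EN

theorem t : S_SQ4 := by
  intro E V f z₀ s₀ hE hV hfc hinj hfd hz₀ hs₀
  obtain ⟨ρ, hρ, hρV⟩ := Metric.isOpen_iff.1 hV z₀ hz₀
  set s : ℝ := min s₀ (ρ / 2) with hs
  have hs0 : 0 < s := lt_min hs₀ (by linarith)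
  have hsρ : s < ρ := (min_le_right _ _).trans_lt (by linarith)
  have hcb : Metric.closedBall z₀ s ⊆ V :=
    (Metric.closedBall_subset_ball hsρ).trans hρV
  have hbV : Metric.ball z₀ s ⊆ V := Metric.ball_subset_closedBall.trans hcb
  -- extension of `f` from the closed ball
  let g : C(Metric.closedBall z₀ s, ℂ) :=
    ⟨fun z => f z.1, continuousOn_iff_continuous_restrict.1 (hfc.mono hcb)⟩
  obtain ⟨u, hu⟩ := ContinuousMap.exists_restrict_eq (Metric.isClosed_closedBall) g
  have hu' : ∀ z ∈ Metric.closedBall z₀ s, u z = f z := by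
    intro z hz
    have := congrArg (fun k : C(Metric.closedBall z₀ s, ℂ) => k ⟨z, hz⟩) hu
    exact this
  have hub : ∀ z ∈ Metric.ball z₀ s, u z = f z := fun z hz =>
    hu' z (Metric.ball_subset_closedBall hz)
  refine ⟨s, u, hs0, min_le_left _ _, hbV, hub, u.continuous, ?_, ?_⟩
  · exact (hfd.mono (sdiff_subset_sdiff_left hbV)).congr fun z hz => hub z hz.1
  · have hop : IsOpen (Metric.ball z₀ s \ E) := Metric.isOpen_ball.sdiff hE
    have hVE : IsOpen (V \ E) := hV.sdiff hE
    have hfin : volume (f '' (Metric.ball z₀ s \ E)) ≠ ⊤ := by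
      have hc : IsCompact (f '' Metric.closedBall z₀ s) :=
        (isCompact_closedBall z₀ s).image_of_continuousOn (hfc.mono hcb)
      exact ne_top_of_le_ne_top hc.measure_lt_top.ne
        (measure_mono (image_mono (sdiff_subset.trans Metric.ball_subset_closedBall)))
    have h1 := (Helper24.CH.integrableOn_deriv_sq (f := f) hop.measurableSet
      (fun z hz => hfd.differentiableAt (hVE.mem_nhds ⟨hbV hz.1, hz.2⟩))
      (hinj.mono (sdiff_subset.trans hbV)) hfin).1
    refine h1.congr_fun (fun z hz => ?_) hop.measurableSet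
    have h2 : (u : ℂ → ℂ) =ᶠ[𝓝 z] f := by
      filter_upwards [Metric.isOpen_ball.mem_nhds hz.1] with y hy
      exact hub y hy
    show ‖deriv f z‖ ^ 2 = ‖deriv (u : ℂ → ℂ) z‖ ^ 2
    rw [h2.deriv_eq]

end Pool.Agent.Helper30.EN4.SQ4
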